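import Pool.Agent.H354R3.ZN.All3

set_option autoImplicit false

open MeasureTheory H354ZN

namespace Pool.Agent.Results.MP_b5407d_gt.ReflectionLp

/-- The `L_p`-Brunn-Minkowski inequality, `0 < p < 1`, with its equality case, for symmetric convex
bodies invariant under the reflections in `n - 2` coordinate hyperplanes. -/
theorem result (n : ℕ) (K C : Set (EuclideanSpace ℝ (Fin n))) (p α β : ℝ) (hn : 2 ≤ n)
    (hK : SB K) (hC : SB C) (hKR : Ref K) (hCR : Ref C) (hp0 : 0 < p) (hp1 : p < 1)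
    (hα : 0 < α) (hβ : 0 < β) :
    α * (volume K).toReal ^ (p / n) + β * (volume C).toReal ^ (p / n) ≤
      (volume {x : EuclideanSpace ℝ (Fin n) | ∀ u : EuclideanSpace ℝ (Fin n), ‖u‖ = 1 →
        inner ℝ x u ≤ (α * hh K u ^ p + β * hh C u ^ p) ^ (1 / p)}).toReal ^ (p / n) ∧
    ((volume {x : EuclideanSpace ℝ (Fin n) | ∀ u : EuclideanSpace ℝ (Fin n), ‖u‖ = 1 →
        inner ℝ x u ≤ (α * hh K u ^ p + β * hh C u ^ p) ^ (1 / p)}).toReal ^ (p / n) =
      α * (volume K).toReal ^ (p / n) + β * (volume C).toReal ^ (p / n) ↔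
        ∃ t : ℝ, 0 < t ∧ C = (fun x : EuclideanSpace ℝ (Fin n) => t • x) '' K) :=
  a_LPR n K C p α β hn hK hC hKR hCR hp0 hp1 hα hβ

end Pool.Agent.Results.MP_b5407d_gt.ReflectionLp
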