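import Pool.Agent.H354R3.ZN.All2

set_option autoImplicit false

open MeasureTheory H354ZN

namespace Pool.Agent.Results.MP_b5407d_gt.ZonoidMiddle

/-- The `L_p`-Brunn-Minkowski inequality, `0 < p < 1`, with its equality case, for symmetric convex
bodies whose `L_p`-combination is a zonoid. -/
theorem result (n : ℕ) (K C : Set (EuclideanSpace ℝ (Fin n))) (p α β : ℝ) (hn : 1 ≤ n)
    (hK : SB K) (hC : SB C) (hp : 0 < p) (hp1 : p < 1) (hα : 0 < α) (hβ : 0 < β)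
    (hZ : IsZonoid {x : EuclideanSpace ℝ (Fin n) | ∀ u : EuclideanSpace ℝ (Fin n), ‖u‖ = 1 →
      inner ℝ x u ≤ (α * hh K u ^ p + β * hh C u ^ p) ^ (1 / p)}) :
    α * (volume K).toReal ^ (p / n) + β * (volume C).toReal ^ (p / n) ≤
      (volume {x : EuclideanSpace ℝ (Fin n) | ∀ u : EuclideanSpace ℝ (Fin n), ‖u‖ = 1 →
        inner ℝ x u ≤ (α * hh K u ^ p + β * hh C u ^ p) ^ (1 / p)}).toReal ^ (p / n) ∧
    ((volume {x : EuclideanSpace ℝ (Fin n) | ∀ u : EuclideanSpace ℝ (Fin n), ‖u‖ = 1 →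
        inner ℝ x u ≤ (α * hh K u ^ p + β * hh C u ^ p) ^ (1 / p)}).toReal ^ (p / n) =
      α * (volume K).toReal ^ (p / n) + β * (volume C).toReal ^ (p / n) ↔
        ∃ t : ℝ, 0 < t ∧ C = (fun x : EuclideanSpace ℝ (Fin n) => t • x) '' K) :=
  a_LPZ n K C p α β hn hK hC hp hp1 hα hβ hZ

end Pool.Agent.Results.MP_b5407d_gt.ZonoidMiddle
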